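import Mathlib

/-!
# Metrics on the torus close to the metric of a torus of revolution without isometric embedding

For `0 < ρ < r < R` the metric `(R + ρ cos v)² du² + r² dv²` on the torus has total positive
curvature `4 π ρ / r < 4 π`, while every closed surface that is smoothly immersed in Euclidean
3-space has total positive curvature at least `4 π`. So the metric has no smooth isometric
embedding into Euclidean 3-space. As `ρ` tends to `r` it tends to the metric induced on the torus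
of revolution with radii `R` and `r`.
-/

open Real
open scoped ContDiff ENNReal

namespace Pool.Agent.Results.MP_665542_gt.TorusOfRevolution

/-- invariance under the lattice generated by `(2π, 0)` and `(0, 2π)` -/
def Periodic2 {α : Type} (h : ℝ × ℝ → α) : Prop :=
  ∀ p : ℝ × ℝ, h (p.1 + 2 * π, p.2) = h p ∧ h (p.1, p.2 + 2 * π) = h p

/-- A smooth Riemannian metric `E du² + 2 F du dv + G dv²` on the torus `T² = ℝ² / (2πℤ)²`,
given by its coefficients, which are smooth doubly periodic functions of `(u, v)`. -/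
structure TorusMetric where
  E : ℝ × ℝ → ℝ
  F : ℝ × ℝ → ℝ
  G : ℝ × ℝ → ℝ
  smooth_E : ContDiff ℝ ∞ E
  smooth_F : ContDiff ℝ ∞ F
  smooth_G : ContDiff ℝ ∞ G
  periodic_E : Periodic2 E
  periodic_F : Periodic2 F
  periodic_G : Periodic2 G
  E_pos : ∀ p, 0 < E p
  det_pos : ∀ p, 0 < E p * G p - F p ^ 2

/-- `f` is a smooth isometric embedding of the torus with metric `g` into Euclidean 3-space:
a smooth doubly periodic map of the plane, injective modulo the lattice `(2πℤ)²`, that pulls the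
Euclidean metric back to `g`. -/
structure IsIsometricEmbedding (g : TorusMetric) (f : ℝ × ℝ → EuclideanSpace ℝ (Fin 3)) :
    Prop where
  smooth : ContDiff ℝ ∞ f
  periodic : Periodic2 f
  injective : ∀ p q : ℝ × ℝ, f p = f q →
    ∃ m n : ℤ, q = (p.1 + m * (2 * π), p.2 + n * (2 * π))
  inner_uu : ∀ p, inner ℝ (fderiv ℝ f p (1, 0)) (fderiv ℝ f p (1, 0)) = g.E p
  inner_uv : ∀ p, inner ℝ (fderiv ℝ f p (1, 0)) (fderiv ℝ f p (0, 1)) = g.F p
  inner_vv : ∀ p, inner ℝ (fderiv ℝ f p (0, 1)) (fderiv ℝ f p (0, 1)) = g.G p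

/-- the matrix of the metric at a point, in the coordinates `(u, v)` -/
def TorusMetric.mat (g : TorusMetric) (p : ℝ × ℝ) : Matrix (Fin 2) (Fin 2) ℝ :=
  !![g.E p, g.F p; g.F p, g.G p]

/-- The `C⁰` distance `sup_p |g - g₀|_{g₀}(p)`. The `g₀`-norm of a symmetric 2-tensor with matrix
`H` is the square root of `tr ((G₀⁻¹ H)²)`, where `G₀` is the matrix of `g₀`. -/
noncomputable def c0Dist (g₀ g : TorusMetric) : ℝ≥0∞ :=
  ⨆ p : ℝ × ℝ, ENNReal.ofReal
    (Real.sqrt (Matrix.trace (((g₀.mat p)⁻¹ * (g.mat p - g₀.mat p)) ^ 2)))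

/-- the torus of revolution with radii `R` and `r` -/
noncomputable def torusOfRevolution (R r : ℝ) (p : ℝ × ℝ) : EuclideanSpace ℝ (Fin 3) :=
  !₂[(R + r * Real.cos p.2) * Real.cos p.1, (R + r * Real.cos p.2) * Real.sin p.1,
    r * Real.sin p.2]

/-! ### Calculus in the plane -/

/-- smooth real functions on the plane -/
abbrev Sm (g : ℝ × ℝ → ℝ) : Prop := ContDiff ℝ ∞ g

noncomputable def Du (g : ℝ × ℝ → ℝ) (p : ℝ × ℝ) : ℝ := fderiv ℝ g p (1, 0)
noncomputable def Dv (g : ℝ × ℝ → ℝ) (p : ℝ × ℝ) : ℝ := fderiv ℝ g p (0, 1)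

lemma Sm.diff {g : ℝ × ℝ → ℝ} (hg : Sm g) : Differentiable ℝ g :=
  hg.differentiable (by simp)

lemma Sm.fderiv {g : ℝ × ℝ → ℝ} (hg : Sm g) : ContDiff ℝ ∞ (fderiv ℝ g) :=
  hg.fderiv_right (m := ∞) (by simp)

lemma Sm.Du {g : ℝ × ℝ → ℝ} (hg : Sm g) : Sm (Du g) :=
  hg.fderiv.clm_apply contDiff_const

lemma Sm.Dv {g : ℝ × ℝ → ℝ} (hg : Sm g) : Sm (Dv g) :=
  hg.fderiv.clm_apply contDiff_const

lemma fderiv_eq {g : ℝ × ℝ → ℝ} (p : ℝ × ℝ) (a b : ℝ) :
    fderiv ℝ g p (a, b) = a * Du g p + b * Dv g p := by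
  have : ((a, b) : ℝ × ℝ) = a • ((1, 0) : ℝ × ℝ) + b • ((0, 1) : ℝ × ℝ) := by simp
  rw [this, map_add, map_smul, map_smul]
  simp [Du, Dv]

lemma Du_mul {g h : ℝ × ℝ → ℝ} (hg : Sm g) (hh : Sm h) (p : ℝ × ℝ) :
    Du (fun q => g q * h q) p = Du g p * h p + g p * Du h p := by
  unfold Du
  rw [fderiv_fun_mul (hg.diff p) (hh.diff p)]
  simp
  ring

lemma Dv_mul {g h : ℝ × ℝ → ℝ} (hg : Sm g) (hh : Sm h) (p : ℝ × ℝ) :
    Dv (fun q => g q * h q) p = Dv g p * h p + g p * Dv h p := by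
  unfold Dv
  rw [fderiv_fun_mul (hg.diff p) (hh.diff p)]
  simp
  ring

lemma Du_add {g h : ℝ × ℝ → ℝ} (hg : Sm g) (hh : Sm h) (p : ℝ × ℝ) :
    Du (fun q => g q + h q) p = Du g p + Du h p := by
  unfold Du
  rw [fderiv_fun_add (hg.diff p) (hh.diff p)]
  simp

lemma Dv_add {g h : ℝ × ℝ → ℝ} (hg : Sm g) (hh : Sm h) (p : ℝ × ℝ) :
    Dv (fun q => g q + h q) p = Dv g p + Dv h p := by
  unfold Dv
  rw [fderiv_fun_add (hg.diff p) (hh.diff p)]
  simp

lemma Du_Dv {g : ℝ × ℝ → ℝ} (hg : Sm g) (p : ℝ × ℝ) : Du (Dv g) p = Dv (Du g) p := by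
  have hs : IsSymmSndFDerivAt ℝ g p := hg.contDiffAt.isSymmSndFDerivAt (by
    simp only [minSmoothness_of_isRCLikeNormedField]
    exact WithTop.coe_le_coe.2 le_top)
  have hd : DifferentiableAt ℝ (_root_.fderiv ℝ g) p := (hg.fderiv.differentiable (by simp)) p
  have h1 : Du (Dv g) p = (_root_.fderiv ℝ (_root_.fderiv ℝ g) p (1, 0)) (0, 1) := by
    unfold Du Dv
    rw [fderiv_clm_apply hd (by fun_prop)]
    simp
  have h2 : Dv (Du g) p = (_root_.fderiv ℝ (_root_.fderiv ℝ g) p (0, 1)) (1, 0) := by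
    unfold Du Dv
    rw [fderiv_clm_apply hd (by fun_prop)]
    simp
  rw [h1, h2]
  exact hs _ _

/-- second derivative test, one variable -/
lemma second_deriv_nonpos {φ φ' : ℝ → ℝ} {c : ℝ} (h1 : ∀ t, HasDerivAt φ (φ' t) t)
    (h2 : HasDerivAt φ' c 0) (hmax : ∀ t, φ t ≤ φ 0) : c ≤ 0 := by
  by_contra hc
  push Not at hc
  have hd : deriv φ = φ' := funext fun t => (h1 t).deriv
  have hlm : IsLocalMax φ 0 := Filter.Eventually.of_forall hmax
  have h0 : deriv φ 0 = 0 := hlm.deriv_eq_zero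
  have hmin : IsLocalMin φ 0 := by
    apply isLocalMin_of_deriv_deriv_pos _ h0 (h1 0).continuousAt
    rw [hd, h2.deriv]
    exact hc
  have hconst : φ =ᶠ[nhds 0] fun _ : ℝ => φ 0 := by
    filter_upwards [hmin] with t ht
    exact le_antisymm (hmax t) ht
  have h3 : deriv φ =ᶠ[nhds 0] deriv fun _ : ℝ => φ 0 := hconst.deriv
  have h4 : deriv (deriv φ) 0 = deriv (deriv fun _ : ℝ => φ 0) 0 := h3.deriv_eq
  rw [hd, h2.deriv] at h4
  simp at h4
  linarith

lemma hasDerivAt_line {g : ℝ × ℝ → ℝ} (hg : Sm g) (p : ℝ × ℝ) (a b t : ℝ) :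
    HasDerivAt (fun t : ℝ => g (p.1 + t * a, p.2 + t * b))
      (a * Du g (p.1 + t * a, p.2 + t * b) + b * Dv g (p.1 + t * a, p.2 + t * b)) t := by
  have h1 : HasDerivAt (fun t : ℝ => ((p.1 + t * a, p.2 + t * b) : ℝ × ℝ)) (a, b) t := by
    apply HasDerivAt.prodMk
    · simpa using ((hasDerivAt_id t).mul_const a).const_add p.1
    · simpa using ((hasDerivAt_id t).mul_const b).const_add p.2
  have h2 := ((hg.diff (p.1 + t * a, p.2 + t * b)).hasFDerivAt).comp_hasDerivAt t h1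
  rw [fderiv_eq] at h2
  exact h2

/-- at a global maximum the Hessian determinant is nonnegative -/
lemma hessian_at_max {g : ℝ × ℝ → ℝ} (hg : Sm g) (p : ℝ × ℝ) (hmax : ∀ q, g q ≤ g p) :
    0 ≤ Du (Du g) p * Dv (Dv g) p - Dv (Du g) p ^ 2 := by
  have key : ∀ x : ℝ, Du (Du g) p * (x * x) + (2 * Dv (Du g) p) * x + Dv (Dv g) p ≤ 0 := by
    intro x
    have h1 := fun t => hasDerivAt_line hg p x 1 t
    have h2 := (hasDerivAt_line hg.Du p x 1 0).const_mul x
    have h3 := (hasDerivAt_line hg.Dv p x 1 0).const_mul 1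
    have h4 := second_deriv_nonpos h1 (h2.add h3) (by
      intro t
      simpa using hmax _)
    simp only [zero_mul, add_zero, Prod.mk.eta] at h4
    rw [Du_Dv hg] at h4
    linarith
  have := discrim_le_zero_of_nonpos key
  unfold discrim at this
  linarith

lemma grad_at_max {g : ℝ × ℝ → ℝ} {p : ℝ × ℝ} (hmax : ∀ q, g q ≤ g p) :
    Du g p = 0 ∧ Dv g p = 0 := by
  have hlm : IsLocalMax g p := Filter.Eventually.of_forall hmax
  have := hlm.fderiv_eq_zero
  unfold Du Dv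
  rw [this]
  simp

/-- cross product component built from first derivatives -/
noncomputable def cr (g h : ℝ × ℝ → ℝ) (p : ℝ × ℝ) : ℝ := Du g p * Dv h p - Du h p * Dv g p

lemma Sm.cr {g h : ℝ × ℝ → ℝ} (hg : Sm g) (hh : Sm h) : Sm (cr g h) :=
  (hg.Du.mul hh.Dv).sub (hh.Du.mul hg.Dv)

lemma Du_cr {g h : ℝ × ℝ → ℝ} (hg : Sm g) (hh : Sm h) (p : ℝ × ℝ) :
    Du (cr g h) p = Du (Du g) p * Dv h p + Du g p * Dv (Du h) p
      - Du (Du h) p * Dv g p - Du h p * Dv (Du g) p := by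
  have h1 : cr g h = fun q => (Du g q * Dv h q) + (-1) * (Du h q * Dv g q) := by
    funext q; unfold cr; ring
  have h2 : Du (fun q : ℝ × ℝ => (-1 : ℝ)) p = 0 := by simp [Du]
  rw [h1, Du_add (hg.Du.mul hh.Dv) (contDiff_const.mul (hh.Du.mul hg.Dv)),
    Du_mul contDiff_const (hh.Du.mul hg.Dv), Du_mul hg.Du hh.Dv, Du_mul hh.Du hg.Dv, h2,
    Du_Dv hg, Du_Dv hh]
  ring

lemma Dv_cr {g h : ℝ × ℝ → ℝ} (hg : Sm g) (hh : Sm h) (p : ℝ × ℝ) :
    Dv (cr g h) p = Dv (Du g) p * Dv h p + Du g p * Dv (Dv h) p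
      - Dv (Du h) p * Dv g p - Du h p * Dv (Dv g) p := by
  have h1 : cr g h = fun q => (Du g q * Dv h q) + (-1) * (Du h q * Dv g q) := by
    funext q; unfold cr; ring
  have h2 : Dv (fun q : ℝ × ℝ => (-1 : ℝ)) p = 0 := by simp [Dv]
  rw [h1, Dv_add (hg.Du.mul hh.Dv) (contDiff_const.mul (hh.Du.mul hg.Dv)),
    Dv_mul contDiff_const (hh.Du.mul hg.Dv), Dv_mul hg.Du hh.Dv, Dv_mul hh.Du hg.Dv, h2]
  ring

/-- profile function of the metric -/
noncomputable def prof (R ρ : ℝ) (p : ℝ × ℝ) : ℝ := R + ρ * Real.cos p.2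

lemma sm_prof (R ρ : ℝ) : Sm (prof R ρ) :=
  contDiff_const.add (contDiff_const.mul (Real.contDiff_cos.comp contDiff_snd))

lemma Du_prof (R ρ : ℝ) (p : ℝ × ℝ) : Du (prof R ρ) p = 0 := by
  have h := hasDerivAt_line (sm_prof R ρ) p 1 0 0
  have h2 : HasDerivAt (fun t : ℝ => prof R ρ (p.1 + t * 1, p.2 + t * 0)) 0 0 := by
    simp only [prof, mul_zero, add_zero]
    exact hasDerivAt_const _ _
  have := h.unique h2
  simpa using this

lemma Dv_prof (R ρ : ℝ) (p : ℝ × ℝ) : Dv (prof R ρ) p = - ρ * Real.sin p.2 := by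
  have h := hasDerivAt_line (sm_prof R ρ) p 0 1 0
  have h2 : HasDerivAt (fun t : ℝ => prof R ρ (p.1 + t * 0, p.2 + t * 1)) (- ρ * Real.sin p.2) 0 := by
    simp only [prof, mul_one]
    have h3 : HasDerivAt (fun t : ℝ => p.2 + t) 1 0 := (hasDerivAt_id 0).const_add p.2
    have h4 := (h3.cos.const_mul ρ).const_add R
    simpa using h4
  have := h.unique h2
  simpa using this

/-- admissible parameters -/
structure Adm (R ρ r : ℝ) : Prop where
  h0 : 0 < ρ
  h1 : ρ < r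
  hR : r < R

lemma prof_pos' {R ρ : ℝ} (h0 : 0 < ρ) (h1 : ρ < R) (p : ℝ × ℝ) : 0 < prof R ρ p := by
  unfold prof
  nlinarith [Real.neg_one_le_cos p.2, Real.cos_le_one p.2]

lemma prof_pos {R ρ r : ℝ} (H : Adm R ρ r) (p : ℝ × ℝ) : 0 < prof R ρ p :=
  prof_pos' H.h0 (H.h1.trans H.hR) p

lemma Adm.r_pos {R ρ r : ℝ} (H : Adm R ρ r) : 0 < r := H.h0.trans H.h1

/-- three smooth functions inducing the metric `prof^2 du^2 + r^2 dv^2` -/
structure Ind (R ρ r : ℝ) (x y z : ℝ × ℝ → ℝ) : Prop where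
  sx : Sm x
  sy : Sm y
  sz : Sm z
  hE : ∀ p, Du x p * Du x p + Du y p * Du y p + Du z p * Du z p = prof R ρ p * prof R ρ p
  hF : ∀ p, Du x p * Dv x p + Du y p * Dv y p + Du z p * Dv z p = 0
  hG : ∀ p, Dv x p * Dv x p + Dv y p * Dv y p + Dv z p * Dv z p = r * r

variable {R ρ r : ℝ} {x y z : ℝ × ℝ → ℝ}

lemma Du_dot {x' y' z' : ℝ × ℝ → ℝ} (hx : Sm x) (hy : Sm y) (hz : Sm z) (hx' : Sm x')
    (hy' : Sm y') (hz' : Sm z') (p : ℝ × ℝ) :
    Du (fun q => x q * x' q + y q * y' q + z q * z' q) p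
      = Du x p * x' p + x p * Du x' p + (Du y p * y' p + y p * Du y' p)
        + (Du z p * z' p + z p * Du z' p) := by
  rw [Du_add ((hx.mul hx').add (hy.mul hy')) (hz.mul hz'), Du_add (hx.mul hx') (hy.mul hy'),
    Du_mul hx hx', Du_mul hy hy', Du_mul hz hz']

lemma Dv_dot {x' y' z' : ℝ × ℝ → ℝ} (hx : Sm x) (hy : Sm y) (hz : Sm z) (hx' : Sm x')
    (hy' : Sm y') (hz' : Sm z') (p : ℝ × ℝ) :
    Dv (fun q => x q * x' q + y q * y' q + z q * z' q) p
      = Dv x p * x' p + x p * Dv x' p + (Dv y p * y' p + y p * Dv y' p)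
        + (Dv z p * z' p + z p * Dv z' p) := by
  rw [Dv_add ((hx.mul hx').add (hy.mul hy')) (hz.mul hz'), Dv_add (hx.mul hx') (hy.mul hy'),
    Dv_mul hx hx', Dv_mul hy hy', Dv_mul hz hz']

/-- Gram determinant form of the product of two triple products -/
lemma gram (a1 a2 a3 b1 b2 b3 u1 u2 u3 v1 v2 v3 : ℝ) :
    (a1 * (u2 * v3 - u3 * v2) + a2 * (u3 * v1 - u1 * v3) + a3 * (u1 * v2 - u2 * v1))
      * (b1 * (u2 * v3 - u3 * v2) + b2 * (u3 * v1 - u1 * v3) + b3 * (u1 * v2 - u2 * v1))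
    = (a1 * b1 + a2 * b2 + a3 * b3)
        * ((u1 * u1 + u2 * u2 + u3 * u3) * (v1 * v1 + v2 * v2 + v3 * v3)
          - (u1 * v1 + u2 * v2 + u3 * v3) * (u1 * v1 + u2 * v2 + u3 * v3))
      - (a1 * u1 + a2 * u2 + a3 * u3)
        * ((u1 * b1 + u2 * b2 + u3 * b3) * (v1 * v1 + v2 * v2 + v3 * v3)
          - (u1 * v1 + u2 * v2 + u3 * v3) * (v1 * b1 + v2 * b2 + v3 * b3))
      + (a1 * v1 + a2 * v2 + a3 * v3)
        * ((u1 * b1 + u2 * b2 + u3 * b3) * (u1 * v1 + u2 * v2 + u3 * v3)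
          - (u1 * u1 + u2 * u2 + u3 * u3) * (v1 * b1 + v2 * b2 + v3 * b3)) := by
  ring

/-- the Jacobian of the (unnormalised) Gauss map -/
lemma jac (u1 u2 u3 v1 v2 v3 a1 a2 a3 b1 b2 b3 c1 c2 c3 : ℝ) :
    let W1 := u2 * v3 - u3 * v2
    let W2 := u3 * v1 - u1 * v3
    let W3 := u1 * v2 - u2 * v1
    let P1 := a2 * v3 + u2 * b3 - a3 * v2 - u3 * b2
    let P2 := a3 * v1 + u3 * b1 - a1 * v3 - u1 * b3
    let P3 := a1 * v2 + u1 * b2 - a2 * v1 - u2 * b1
    let Q1 := b2 * v3 + u2 * c3 - b3 * v2 - u3 * c2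
    let Q2 := b3 * v1 + u3 * c1 - b1 * v3 - u1 * c3
    let Q3 := b1 * v2 + u1 * c2 - b2 * v1 - u2 * c1
    P1 * (Q2 * W3 - Q3 * W2) + P2 * (Q3 * W1 - Q1 * W3) + P3 * (Q1 * W2 - Q2 * W1)
      = (a1 * W1 + a2 * W2 + a3 * W3) * (c1 * W1 + c2 * W2 + c3 * W3)
        - (b1 * W1 + b2 * W2 + b3 * W3) * (b1 * W1 + b2 * W2 + b3 * W3) := by
  intro W1 W2 W3 P1 P2 P3 Q1 Q2 Q3
  simp only [W1, W2, W3, P1, P2, P3, Q1, Q2, Q3]
  ring

/-- first order consequences of the metric equations -/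
lemma Ind.first (h : Ind R ρ r x y z) (p : ℝ × ℝ) :
    (Du (Du x) p * Du x p + Du (Du y) p * Du y p + Du (Du z) p * Du z p = 0) ∧
    (Dv (Du x) p * Du x p + Dv (Du y) p * Du y p + Dv (Du z) p * Du z p
      = prof R ρ p * (- ρ * Real.sin p.2)) ∧
    (Dv (Du x) p * Dv x p + Dv (Du y) p * Dv y p + Dv (Du z) p * Dv z p = 0) ∧
    (Du (Du x) p * Dv x p + Du (Du y) p * Dv y p + Du (Du z) p * Dv z p
      = - (prof R ρ p * (- ρ * Real.sin p.2))) ∧
    (Dv (Dv x) p * Dv x p + Dv (Dv y) p * Dv y p + Dv (Dv z) p * Dv z p = 0) ∧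
    (Dv (Dv x) p * Du x p + Dv (Dv y) p * Du y p + Dv (Dv z) p * Du z p = 0) := by
  have sx := h.sx
  have sy := h.sy
  have sz := h.sz
  have e1 := Du_dot sx.Du sy.Du sz.Du sx.Du sy.Du sz.Du p
  have e2 := Dv_dot sx.Du sy.Du sz.Du sx.Du sy.Du sz.Du p
  have f1 := Du_dot sx.Du sy.Du sz.Du sx.Dv sy.Dv sz.Dv p
  have f2 := Dv_dot sx.Du sy.Du sz.Du sx.Dv sy.Dv sz.Dv p
  have g1 := Du_dot sx.Dv sy.Dv sz.Dv sx.Dv sy.Dv sz.Dv p
  have g2 := Dv_dot sx.Dv sy.Dv sz.Dv sx.Dv sy.Dv sz.Dv p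
  rw [funext h.hE] at e1 e2
  rw [funext h.hF] at f1 f2
  rw [funext h.hG] at g1 g2
  rw [Du_mul (sm_prof R ρ) (sm_prof R ρ), Du_prof] at e1
  rw [Dv_mul (sm_prof R ρ) (sm_prof R ρ), Dv_prof] at e2
  have c0 : ∀ c : ℝ, Du (fun _ : ℝ × ℝ => c) p = 0 := by intro c; simp [Du]
  have c1 : ∀ c : ℝ, Dv (fun _ : ℝ × ℝ => c) p = 0 := by intro c; simp [Dv]
  rw [c0] at f1 g1
  rw [c1] at f2 g2
  rw [Du_Dv sx, Du_Dv sy, Du_Dv sz] at f1 g1
  refine ⟨?_, ?_, ?_, ?_, ?_, ?_⟩
  · linarith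
  · linarith
  · linarith
  · linarith
  · linarith
  · linarith

lemma Ind.second (h : Ind R ρ r x y z) (p : ℝ × ℝ) :
    (Du (Du x) p * Dv (Dv x) p + Du (Du y) p * Dv (Dv y) p + Du (Du z) p * Dv (Dv z) p)
      - (Dv (Du x) p * Dv (Du x) p + Dv (Du y) p * Dv (Du y) p + Dv (Du z) p * Dv (Du z) p)
      = - ((ρ * Real.sin p.2) ^ 2 - prof R ρ p * (ρ * Real.cos p.2)) := by
  have sx := h.sx
  have sy := h.sy
  have sz := h.sz
  have e1 := Dv_dot sx.Du.Du sy.Du.Du sz.Du.Du sx.Dv sy.Dv sz.Dv p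
  have e2 := Du_dot sx.Du.Dv sy.Du.Dv sz.Du.Dv sx.Dv sy.Dv sz.Dv p
  rw [funext fun q => (h.first q).2.2.2.1] at e1
  rw [funext fun q => (h.first q).2.2.1] at e2
  have c0 : ∀ c : ℝ, Du (fun _ : ℝ × ℝ => c) p = 0 := by intro c; simp [Du]
  rw [c0] at e2
  have hd : Dv (fun q => - (prof R ρ q * (- ρ * Real.sin q.2))) p
      = - ((ρ * Real.sin p.2) ^ 2 - prof R ρ p * (ρ * Real.cos p.2)) := by
    have hs : Sm (fun q : ℝ × ℝ => Real.sin q.2) := Real.contDiff_sin.comp contDiff_snd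
    have hds : Dv (fun q : ℝ × ℝ => Real.sin q.2) p = Real.cos p.2 := by
      have h := hasDerivAt_line hs p 0 1 0
      have h2 : HasDerivAt (fun t : ℝ => Real.sin (p.2 + t * 1)) (Real.cos p.2) 0 := by
        simp only [mul_one]
        have h3 : HasDerivAt (fun t : ℝ => p.2 + t) 1 0 := (hasDerivAt_id 0).const_add p.2
        simpa using h3.sin
      have := h.unique h2
      simpa using this
    have h5 : (fun q => - (prof R ρ q * (- ρ * Real.sin q.2)))
        = fun q => prof R ρ q * (ρ * Real.sin q.2) := by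
      funext q; ring
    rw [h5, Dv_mul (sm_prof R ρ) (contDiff_const.mul hs), Dv_mul contDiff_const hs, hds, Dv_prof]
    have c1 : Dv (fun _ : ℝ × ℝ => ρ) p = 0 := by simp [Dv]
    rw [c1]
    ring
  rw [hd] at e1
  have m1 : ∀ {g : ℝ × ℝ → ℝ}, Sm g → Dv (Du (Du g)) p = Du (Dv (Du g)) p := by
    intro g hg
    rw [Du_Dv hg.Du]
  rw [m1 sx, m1 sy, m1 sz] at e1
  rw [Du_Dv sx, Du_Dv sy, Du_Dv sz] at e2
  linarith

/-- Gauss equation: determinant of the second fundamental form -/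
lemma Ind.gauss (h : Ind R ρ r x y z) (p : ℝ × ℝ) :
    (Du (Du x) p * cr y z p + Du (Du y) p * cr z x p + Du (Du z) p * cr x y p)
      * (Dv (Dv x) p * cr y z p + Dv (Dv y) p * cr z x p + Dv (Dv z) p * cr x y p)
    - (Dv (Du x) p * cr y z p + Dv (Du y) p * cr z x p + Dv (Du z) p * cr x y p)
      * (Dv (Du x) p * cr y z p + Dv (Du y) p * cr z x p + Dv (Du z) p * cr x y p)
    = r ^ 2 * prof R ρ p ^ 3 * (ρ * Real.cos p.2) := by
  obtain ⟨h1, h2, h3, h4, h5, h6⟩ := h.first p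
  have hs := h.second p
  have g1 := gram (Du (Du x) p) (Du (Du y) p) (Du (Du z) p) (Dv (Dv x) p) (Dv (Dv y) p)
    (Dv (Dv z) p) (Du x p) (Du y p) (Du z p) (Dv x p) (Dv y p) (Dv z p)
  have g2 := gram (Dv (Du x) p) (Dv (Du y) p) (Dv (Du z) p) (Dv (Du x) p) (Dv (Du y) p)
    (Dv (Du z) p) (Du x p) (Du y p) (Du z p) (Dv x p) (Dv y p) (Dv z p)
  have hE := h.hE p
  have hF := h.hF p
  have hG := h.hG p
  rw [hE, hF, hG, h1, h4] at g1
  rw [hE, hF, hG, h2, h3] at g2
  have h5' : Dv x p * Dv (Dv x) p + Dv y p * Dv (Dv y) p + Dv z p * Dv (Dv z) p = 0 := by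
    linarith
  have h6' : Du x p * Dv (Dv x) p + Du y p * Dv (Dv y) p + Du z p * Dv (Dv z) p = 0 := by
    linarith
  have h2' : Du x p * Dv (Du x) p + Du y p * Dv (Du y) p + Du z p * Dv (Du z) p
      = prof R ρ p * (- ρ * Real.sin p.2) := by
    linarith
  have h3' : Dv x p * Dv (Du x) p + Dv y p * Dv (Du y) p + Dv z p * Dv (Du z) p = 0 := by
    linarith
  rw [h5', h6'] at g1
  rw [h2', h3'] at g2
  unfold cr
  rw [g1, g2]
  linear_combination (r ^ 2 * (prof R ρ p) ^ 2) * hs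

lemma Ind.normal_sq (h : Ind R ρ r x y z) (p : ℝ × ℝ) :
    cr y z p * cr y z p + cr z x p * cr z x p + cr x y p * cr x y p = (r * prof R ρ p) ^ 2 := by
  have hE := h.hE p
  have hF := h.hF p
  have hG := h.hG p
  have key : cr y z p * cr y z p + cr z x p * cr z x p + cr x y p * cr x y p
      = (Du x p * Du x p + Du y p * Du y p + Du z p * Du z p)
        * (Dv x p * Dv x p + Dv y p * Dv y p + Dv z p * Dv z p)
        - (Du x p * Dv x p + Du y p * Dv y p + Du z p * Dv z p) ^ 2 := by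
    unfold cr; ring
  rw [key, hE, hF, hG]
  ring

/-- the Jacobian determinant of the unnormalised normal -/
lemma Ind.jacobian (h : Ind R ρ r x y z) (p : ℝ × ℝ) :
    Du (cr y z) p * (Dv (cr z x) p * cr x y p - Dv (cr x y) p * cr z x p)
      + Du (cr z x) p * (Dv (cr x y) p * cr y z p - Dv (cr y z) p * cr x y p)
      + Du (cr x y) p * (Dv (cr y z) p * cr z x p - Dv (cr z x) p * cr y z p)
    = r ^ 2 * prof R ρ p ^ 3 * (ρ * Real.cos p.2) := by
  have hj := jac (Du x p) (Du y p) (Du z p) (Dv x p) (Dv y p) (Dv z p)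
    (Du (Du x) p) (Du (Du y) p) (Du (Du z) p) (Dv (Du x) p) (Dv (Du y) p) (Dv (Du z) p)
    (Dv (Dv x) p) (Dv (Dv y) p) (Dv (Dv z) p)
  have hg := h.gauss p
  rw [Du_cr h.sy h.sz, Du_cr h.sz h.sx, Du_cr h.sx h.sy, Dv_cr h.sy h.sz, Dv_cr h.sz h.sx,
    Dv_cr h.sx h.sy]
  rw [← hg]
  simp only at hj
  unfold cr
  linear_combination hj

lemma exists_max {g : ℝ × ℝ → ℝ} (hc : Continuous g) (hp : Periodic2 g) :
    ∃ p : ℝ × ℝ, p.1 ∈ Set.Icc 0 (2 * π) ∧ p.2 ∈ Set.Icc (-π) π ∧ ∀ q, g q ≤ g p := by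
  have hK : IsCompact (Set.Icc 0 (2 * π) ×ˢ Set.Icc (-π) π : Set (ℝ × ℝ)) :=
    isCompact_Icc.prod isCompact_Icc
  have hne : (Set.Icc 0 (2 * π) ×ˢ Set.Icc (-π) π : Set (ℝ × ℝ)).Nonempty :=
    ⟨(0, 0), by constructor <;> constructor <;> simp [Real.pi_pos.le]⟩
  obtain ⟨p, hpK, hmax⟩ := hK.exists_isMaxOn hne hc.continuousOn
  refine ⟨p, hpK.1, hpK.2, ?_⟩
  intro q
  have h1 : Function.Periodic (fun u => g (u, q.2)) (2 * π) := fun u => (hp (u, q.2)).1
  obtain ⟨u', hu', hu⟩ := h1.exists_mem_Ico (by positivity) q.1 0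
  have h2 : Function.Periodic (fun v => g (u', v)) (2 * π) := fun v => (hp (u', v)).2
  obtain ⟨v', hv', hv⟩ := h2.exists_mem_Ico (by positivity) q.2 (-π)
  have h3 : g q = g (u', v') := by
    rw [← hv, ← hu]
  rw [h3]
  apply hmax
  refine ⟨⟨hu'.1, by linarith [hu'.2]⟩, ⟨hv'.1, by linarith [hv'.2]⟩⟩

/-- linear algebra: a vector orthogonal to `u` and `v` is parallel to the cross product -/
lemma parallel (n1 n2 n3 u1 u2 u3 v1 v2 v3 : ℝ)
    (hu : n1 * u1 + n2 * u2 + n3 * u3 = 0) (hv : n1 * v1 + n2 * v2 + n3 * v3 = 0) :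
    n2 * (u1 * v2 - u2 * v1) - n3 * (u3 * v1 - u1 * v3) = 0 ∧
    n3 * (u2 * v3 - u3 * v2) - n1 * (u1 * v2 - u2 * v1) = 0 ∧
    n1 * (u3 * v1 - u1 * v3) - n2 * (u2 * v3 - u3 * v2) = 0 := by
  refine ⟨?_, ?_, ?_⟩
  · linear_combination u1 * hv - v1 * hu
  · linear_combination u2 * hv - v2 * hu
  · linear_combination u3 * hv - v3 * hu

/-- a unit vector orthogonal to both tangent vectors is plus or minus the unit normal -/
lemma Ind.normal_unique (h : Ind R ρ r x y z) (H : Adm R ρ r) (p : ℝ × ℝ) {n1 n2 n3 : ℝ}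
    (hn : n1 * n1 + n2 * n2 + n3 * n3 = 1)
    (hu : n1 * Du x p + n2 * Du y p + n3 * Du z p = 0)
    (hv : n1 * Dv x p + n2 * Dv y p + n3 * Dv z p = 0) :
    ∃ s : ℝ, (s = 1 ∨ s = -1) ∧ cr y z p = s * (r * prof R ρ p) * n1 ∧
      cr z x p = s * (r * prof R ρ p) * n2 ∧ cr x y p = s * (r * prof R ρ p) * n3 := by
  obtain ⟨k1, k2, k3⟩ := parallel n1 n2 n3 (Du x p) (Du y p) (Du z p) (Dv x p) (Dv y p) (Dv z p)
    hu hv
  have e1 : cr y z p = Du y p * Dv z p - Du z p * Dv y p := rfl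
  have e2 : cr z x p = Du z p * Dv x p - Du x p * Dv z p := rfl
  have e3 : cr x y p = Du x p * Dv y p - Du y p * Dv x p := rfl
  rw [← e3, ← e2] at k1
  rw [← e1, ← e3] at k2
  rw [← e2, ← e1] at k3
  have hsq := h.normal_sq p
  have hpos := prof_pos H p
  set a := r * prof R ρ p
  set w1 := cr y z p
  set w2 := cr z x p
  set w3 := cr x y p
  set d := n1 * w1 + n2 * w2 + n3 * w3 with hd
  have hw1 : w1 = d * n1 := by
    rw [hd]
    linear_combination (-w1) * hn + n3 * k2 - n2 * k3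
  have hw2 : w2 = d * n2 := by
    rw [hd]
    linear_combination (-w2) * hn + n1 * k3 - n3 * k1
  have hw3 : w3 = d * n3 := by
    rw [hd]
    linear_combination (-w3) * hn + n2 * k1 - n1 * k2
  have hd2 : d ^ 2 = a ^ 2 := by
    rw [← hsq, hw1, hw2, hw3]
    linear_combination (-d ^ 2) * hn
  have hda : (d - a) * (d + a) = 0 := by linear_combination hd2
  rcases mul_eq_zero.mp hda with h' | h'
  · refine ⟨1, Or.inl rfl, ?_, ?_, ?_⟩
    · rw [hw1, sub_eq_zero.mp h']; ring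
    · rw [hw2, sub_eq_zero.mp h']; ring
    · rw [hw3, sub_eq_zero.mp h']; ring
  · have h'' : d = -a := by linarith
    refine ⟨-1, Or.inr rfl, ?_, ?_, ?_⟩
    · rw [hw1, h'']; ring
    · rw [hw2, h'']; ring
    · rw [hw3, h'']; ring

/-- linear combination of the three coordinates -/
def lin (x y z : ℝ × ℝ → ℝ) (n1 n2 n3 : ℝ) (q : ℝ × ℝ) : ℝ := n1 * x q + n2 * y q + n3 * z q

lemma Sm.lin (hx : Sm x) (hy : Sm y) (hz : Sm z) (n1 n2 n3 : ℝ) : Sm (lin x y z n1 n2 n3) :=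
  ((contDiff_const.mul hx).add (contDiff_const.mul hy)).add (contDiff_const.mul hz)

lemma Du_lin (hx : Sm x) (hy : Sm y) (hz : Sm z) (n1 n2 n3 : ℝ) (p : ℝ × ℝ) :
    Du (lin x y z n1 n2 n3) p = lin (Du x) (Du y) (Du z) n1 n2 n3 p := by
  have c : ∀ c : ℝ, Du (fun _ : ℝ × ℝ => c) p = 0 := by intro c; simp [Du]
  have h := Du_dot (contDiff_const (c := n1)) (contDiff_const (c := n2)) (contDiff_const (c := n3))
    hx hy hz p
  rw [c, c, c] at h
  unfold lin
  rw [h]
  ring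

lemma Dv_lin (hx : Sm x) (hy : Sm y) (hz : Sm z) (n1 n2 n3 : ℝ) (p : ℝ × ℝ) :
    Dv (lin x y z n1 n2 n3) p = lin (Dv x) (Dv y) (Dv z) n1 n2 n3 p := by
  have c : ∀ c : ℝ, Dv (fun _ : ℝ × ℝ => c) p = 0 := by intro c; simp [Dv]
  have h := Dv_dot (contDiff_const (c := n1)) (contDiff_const (c := n2)) (contDiff_const (c := n3))
    hx hy hz p
  rw [c, c, c] at h
  unfold lin
  rw [h]
  ring

/-- components of the unit normal -/
noncomputable def nrm (R ρ r : ℝ) (g h : ℝ × ℝ → ℝ) (p : ℝ × ℝ) : ℝ := cr g h p * (r * prof R ρ p)⁻¹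

/-- points where the height function in direction of the normal is maximal -/
def Splus (R ρ r : ℝ) (x y z : ℝ × ℝ → ℝ) : Set (ℝ × ℝ) :=
  {p | ∀ q, lin x y z (nrm R ρ r y z p) (nrm R ρ r z x p) (nrm R ρ r x y p) q
    ≤ lin x y z (nrm R ρ r y z p) (nrm R ρ r z x p) (nrm R ρ r x y p) p}

/-- points where the height function in direction of the normal is minimal -/
def Sminus (R ρ r : ℝ) (x y z : ℝ × ℝ → ℝ) : Set (ℝ × ℝ) :=
  {p | ∀ q, lin x y z (nrm R ρ r y z p) (nrm R ρ r z x p) (nrm R ρ r x y p) p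
    ≤ lin x y z (nrm R ρ r y z p) (nrm R ρ r z x p) (nrm R ρ r x y p) q}

lemma Ind.cover (h : Ind R ρ r x y z) (H : Adm R ρ r)
    (px : Periodic2 x) (py : Periodic2 y) (pz : Periodic2 z) {n1 n2 n3 : ℝ}
    (hn : n1 * n1 + n2 * n2 + n3 * n3 = 1) :
    ∃ p : ℝ × ℝ, p.1 ∈ Set.Icc 0 (2 * π) ∧ p.2 ∈ Set.Icc (-(π / 2)) (π / 2) ∧
      ((p ∈ Splus R ρ r x y z ∧ nrm R ρ r y z p = n1 ∧ nrm R ρ r z x p = n2 ∧ nrm R ρ r x y p = n3) ∨
       (p ∈ Sminus R ρ r x y z ∧ nrm R ρ r y z p = -n1 ∧ nrm R ρ r z x p = -n2 ∧ nrm R ρ r x y p = -n3)) := by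
  have hs := Sm.lin h.sx h.sy h.sz n1 n2 n3
  obtain ⟨p, hp1, hp2, hmax⟩ := exists_max (g := lin x y z n1 n2 n3) hs.continuous (by
    intro p
    unfold lin
    rw [(px p).1, (py p).1, (pz p).1, (px p).2, (py p).2, (pz p).2]
    exact ⟨rfl, rfl⟩)
  obtain ⟨hgu, hgv⟩ := grad_at_max hmax
  have hhes := hessian_at_max hs p hmax
  rw [Du_lin h.sx h.sy h.sz] at hgu
  rw [Dv_lin h.sx h.sy h.sz] at hgv
  have hpos := prof_pos H p
  obtain ⟨s, hs1, w1, w2, w3⟩ := h.normal_unique H p hn hgu hgv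
  have hss : s * s = 1 := by rcases hs1 with h | h <;> rw [h] <;> norm_num
  have hcos : 0 ≤ Real.cos p.2 := by
    have hg := h.gauss p
    rw [funext (Du_lin h.sx h.sy h.sz n1 n2 n3), Du_lin h.sx.Du h.sy.Du h.sz.Du,
      Dv_lin h.sx.Du h.sy.Du h.sz.Du, funext (Dv_lin h.sx h.sy h.sz n1 n2 n3),
      Dv_lin h.sx.Dv h.sy.Dv h.sz.Dv] at hhes
    unfold lin at hhes
    rw [w1, w2, w3] at hg
    have e : r ^ 2 * prof R ρ p ^ 3 * (ρ * Real.cos p.2) = (r * prof R ρ p) ^ 2 *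
      ((n1 * Du (Du x) p + n2 * Du (Du y) p + n3 * Du (Du z) p) *
        (n1 * Dv (Dv x) p + n2 * Dv (Dv y) p + n3 * Dv (Dv z) p) -
      (n1 * Dv (Du x) p + n2 * Dv (Du y) p + n3 * Dv (Du z) p) ^ 2) := by
      rw [← hg]
      linear_combination ((r * prof R ρ p) ^ 2 * ((n1 * Du (Du x) p + n2 * Du (Du y) p + n3 * Du (Du z) p) *
        (n1 * Dv (Dv x) p + n2 * Dv (Dv y) p + n3 * Dv (Dv z) p) -
      (n1 * Dv (Du x) p + n2 * Dv (Du y) p + n3 * Dv (Du z) p) ^ 2)) * hss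
    have e2 : 0 ≤ r ^ 2 * prof R ρ p ^ 3 * (ρ * Real.cos p.2) := by
      rw [e]; positivity
    by_contra hneg
    push Not at hneg
    have hr := H.r_pos
    have : r ^ 2 * prof R ρ p ^ 3 * (ρ * Real.cos p.2) < 0 :=
      mul_neg_of_pos_of_neg (by positivity) (mul_neg_of_pos_of_neg H.h0 hneg)
    linarith
  have hp2' : p.2 ∈ Set.Icc (-(π / 2)) (π / 2) := by
    constructor
    · by_contra hlt
      push Not at hlt
      have : Real.cos (-p.2) < 0 :=
        Real.cos_neg_of_pi_div_two_lt_of_lt (by linarith) (by linarith [hp2.1, Real.pi_pos])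
      rw [Real.cos_neg] at this
      linarith
    · by_contra hlt
      push Not at hlt
      have : Real.cos p.2 < 0 :=
        Real.cos_neg_of_pi_div_two_lt_of_lt hlt (by linarith [hp2.2, Real.pi_pos])
      linarith
  refine ⟨p, hp1, hp2', ?_⟩
  have hr := H.r_pos
  rcases hs1 with hs1 | hs1
  · left
    have a1 : nrm R ρ r y z p = n1 := by
      unfold nrm; rw [w1, hs1]; field_simp
    have a2 : nrm R ρ r z x p = n2 := by
      unfold nrm; rw [w2, hs1]; field_simp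
    have a3 : nrm R ρ r x y p = n3 := by
      unfold nrm; rw [w3, hs1]; field_simp
    refine ⟨?_, a1, a2, a3⟩
    intro q
    rw [a1, a2, a3]
    exact hmax q
  · right
    have a1 : nrm R ρ r y z p = -n1 := by
      unfold nrm; rw [w1, hs1]; field_simp
    have a2 : nrm R ρ r z x p = -n2 := by
      unfold nrm; rw [w2, hs1]; field_simp
    have a3 : nrm R ρ r x y p = -n3 := by
      unfold nrm; rw [w3, hs1]; field_simp
    refine ⟨?_, a1, a2, a3⟩
    intro q
    rw [a1, a2, a3]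
    have := hmax q
    unfold lin at this ⊢
    linarith

lemma Ind.nrm_sq (h : Ind R ρ r x y z) (H : Adm R ρ r) (p : ℝ × ℝ) :
    nrm R ρ r y z p * nrm R ρ r y z p + nrm R ρ r z x p * nrm R ρ r z x p + nrm R ρ r x y p * nrm R ρ r x y p = 1 := by
  have hsq := h.normal_sq p
  have hpos := prof_pos H p
  have hr := H.r_pos
  unfold nrm
  field_simp
  linarith

lemma Ind.disj (h : Ind R ρ r x y z) (H : Adm R ρ r) :
    Disjoint (Splus R ρ r x y z) (Sminus R ρ r x y z) := by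
  rw [Set.disjoint_left]
  intro p hp hm
  set n1 := nrm R ρ r y z p with hn1
  set n2 := nrm R ρ r z x p with hn2
  set n3 := nrm R ρ r x y p with hn3
  have hn : n1 * n1 + n2 * n2 + n3 * n3 = 1 := h.nrm_sq H p
  have hconst : lin x y z n1 n2 n3 = fun _ => lin x y z n1 n2 n3 p := by
    funext q
    exact le_antisymm (hp q) (hm q)
  have du0 : Du (lin x y z n1 n2 n3) = fun _ => 0 := by
    rw [hconst]; funext q; simp [Du]
  have dv0 : Dv (lin x y z n1 n2 n3) = fun _ => 0 := by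
    rw [hconst]; funext q; simp [Dv]
  have duu : ∀ q, Du (Du (lin x y z n1 n2 n3)) q = 0 := by
    rw [du0]; intro q; simp [Du]
  have dvu : ∀ q, Dv (Du (lin x y z n1 n2 n3)) q = 0 := by
    rw [du0]; intro q; simp [Dv]
  have hu := congrFun du0 (0, 0)
  have hv := congrFun dv0 (0, 0)
  rw [Du_lin h.sx h.sy h.sz] at hu
  rw [Dv_lin h.sx h.sy h.sz] at hv
  obtain ⟨s, -, w1, w2, w3⟩ := h.normal_unique H (0, 0) hn hu hv
  have k1 := duu (0, 0)
  have k2 := dvu (0, 0)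
  rw [funext (Du_lin h.sx h.sy h.sz n1 n2 n3), Du_lin h.sx.Du h.sy.Du h.sz.Du] at k1
  rw [funext (Du_lin h.sx h.sy h.sz n1 n2 n3), Dv_lin h.sx.Du h.sy.Du h.sz.Du] at k2
  have hg := h.gauss (0, 0)
  rw [w1, w2, w3] at hg
  unfold lin at k1 k2
  have hpos := prof_pos H (0, 0)
  have hr := H.r_pos
  have h0 := H.h0
  have e : r ^ 2 * prof R ρ (0, 0) ^ 3 * (ρ * Real.cos ((0 : ℝ), (0 : ℝ)).2) = 0 := by
    rw [← hg]
    linear_combination (s ^ 2 * (r * prof R ρ (0, 0)) ^ 2 * (n1 * Dv (Dv x) (0, 0) + n2 * Dv (Dv y) (0, 0)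
      + n3 * Dv (Dv z) (0, 0))) * k1 - (s ^ 2 * (r * prof R ρ (0, 0)) ^ 2 * (n1 * Dv (Du x) (0, 0)
      + n2 * Dv (Du y) (0, 0) + n3 * Dv (Du z) (0, 0))) * k2
  have : 0 < r ^ 2 * prof R ρ (0, 0) ^ 3 * (ρ * Real.cos ((0 : ℝ), (0 : ℝ)).2) := by
    simp only [Real.cos_zero]
    positivity
  linarith

open MeasureTheory

lemma sm_inv (H : Adm R ρ r) : Sm (fun p => (r * prof R ρ p)⁻¹) :=
  (contDiff_const.mul (sm_prof R ρ)).inv fun p => (mul_pos H.r_pos (prof_pos H p)).ne'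

lemma Sm.nrm (H : Adm R ρ r) {g h : ℝ × ℝ → ℝ} (hg : Sm g) (hh : Sm h) :
    Sm (nrm R ρ r g h) :=
  (hg.cr hh).mul (sm_inv H)

/-- Jacobian determinant of the unit normal -/
lemma Ind.jacobian_nrm (h : Ind R ρ r x y z) (H : Adm R ρ r) (p : ℝ × ℝ) :
    Du (nrm R ρ r y z) p * (Dv (nrm R ρ r z x) p * nrm R ρ r x y p - Dv (nrm R ρ r x y) p * nrm R ρ r z x p)
      + Du (nrm R ρ r z x) p * (Dv (nrm R ρ r x y) p * nrm R ρ r y z p - Dv (nrm R ρ r y z) p * nrm R ρ r x y p)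
      + Du (nrm R ρ r x y) p * (Dv (nrm R ρ r y z) p * nrm R ρ r z x p - Dv (nrm R ρ r z x) p * nrm R ρ r y z p)
    = ρ / r * Real.cos p.2 := by
  have hj := h.jacobian p
  have hi := sm_inv H
  have hpos := prof_pos H p
  have key : ∀ {g k : ℝ × ℝ → ℝ}, Sm g → Sm k →
      Du (nrm R ρ r g k) p = Du (cr g k) p * (r * prof R ρ p)⁻¹
        + cr g k p * Du (fun p => (r * prof R ρ p)⁻¹) p ∧
      Dv (nrm R ρ r g k) p = Dv (cr g k) p * (r * prof R ρ p)⁻¹
        + cr g k p * Dv (fun p => (r * prof R ρ p)⁻¹) p := by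
    intro g k hg hk
    exact ⟨Du_mul (hg.cr hk) hi p, Dv_mul (hg.cr hk) hi p⟩
  rw [(key h.sy h.sz).1, (key h.sz h.sx).1, (key h.sx h.sy).1, (key h.sy h.sz).2,
    (key h.sz h.sx).2, (key h.sx h.sy).2]
  unfold nrm
  have hr := H.r_pos
  set A := Du (fun p => (r * prof R ρ p)⁻¹) p
  set B := Dv (fun p => (r * prof R ρ p)⁻¹) p
  have hinv : r * prof R ρ p * (r * prof R ρ p)⁻¹ = 1 :=
    mul_inv_cancel₀ (mul_pos hr hpos).ne'
  set i := (r * prof R ρ p)⁻¹
  have hi3 : (r * prof R ρ p) ^ 3 * i ^ 3 = 1 := by rw [← mul_pow, hinv, one_pow]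
  have hrr : ρ / r * r = ρ := div_mul_cancel₀ ρ hr.ne'
  linear_combination i ^ 3 * hj + (ρ / r * Real.cos p.2) * hi3
    - r ^ 2 * prof R ρ p ^ 3 * Real.cos p.2 * i ^ 3 * hrr

/-- the map `(u, v, t) ↦ s t N(u, v)` -/
noncomputable def Psi (R ρ r : ℝ) (x y z : ℝ × ℝ → ℝ) (s : ℝ) (w : Fin 3 → ℝ) : Fin 3 → ℝ :=
  ![s * w 2 * nrm R ρ r y z (w 0, w 1), s * w 2 * nrm R ρ r z x (w 0, w 1), s * w 2 * nrm R ρ r x y (w 0, w 1)]

/-- derivative of one component -/
noncomputable def dcomp (s : ℝ) (g : ℝ × ℝ → ℝ) (w : Fin 3 → ℝ) : (Fin 3 → ℝ) →L[ℝ] ℝ :=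
  (s * w 2 * Du g (w 0, w 1)) • ContinuousLinearMap.proj 0
    + (s * w 2 * Dv g (w 0, w 1)) • ContinuousLinearMap.proj 1
    + (s * g (w 0, w 1)) • ContinuousLinearMap.proj 2

lemma hasFDerivAt_comp {g : ℝ × ℝ → ℝ} (hg : Sm g) (s : ℝ) (w : Fin 3 → ℝ) :
    HasFDerivAt (fun w : Fin 3 → ℝ => s * w 2 * g (w 0, w 1)) (dcomp s g w) w := by
  have p0 : HasFDerivAt (fun w : Fin 3 → ℝ => w 0) (ContinuousLinearMap.proj 0) w :=
    (ContinuousLinearMap.proj (R := ℝ) (φ := fun _ : Fin 3 => ℝ) 0).hasFDerivAt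
  have p1 : HasFDerivAt (fun w : Fin 3 → ℝ => w 1) (ContinuousLinearMap.proj 1) w :=
    (ContinuousLinearMap.proj (R := ℝ) (φ := fun _ : Fin 3 => ℝ) 1).hasFDerivAt
  have p2 : HasFDerivAt (fun w : Fin 3 → ℝ => w 2) (ContinuousLinearMap.proj 2) w :=
    (ContinuousLinearMap.proj (R := ℝ) (φ := fun _ : Fin 3 => ℝ) 2).hasFDerivAt
  have h1 := (p0.prodMk p1)
  have h2 : HasFDerivAt (fun w : Fin 3 → ℝ => g (w 0, w 1))
      ((fderiv ℝ g (w 0, w 1)).comp ((ContinuousLinearMap.proj (R := ℝ) 0).prod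
        (ContinuousLinearMap.proj (R := ℝ) 1))) w :=
    HasFDerivAt.comp w (hg.diff (w 0, w 1)).hasFDerivAt h1
  have h3 := (p2.const_mul s).mul h2
  have h4 : dcomp s g w = (s * w 2) • ((_root_.fderiv ℝ g (w 0, w 1)).comp
      ((ContinuousLinearMap.proj (R := ℝ) 0).prod (ContinuousLinearMap.proj (R := ℝ) 1)))
      + g (w 0, w 1) • (s • (ContinuousLinearMap.proj 2 : (Fin 3 → ℝ) →L[ℝ] ℝ)) := by
    refine ContinuousLinearMap.ext fun v => ?_
    simp only [dcomp, add_apply, smul_apply, ContinuousLinearMap.comp_apply,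
      ContinuousLinearMap.prod_apply, ContinuousLinearMap.proj_apply, smul_eq_mul, fderiv_eq]
    ring
  rw [h4]
  exact h3

/-- derivative of `Psi` -/
noncomputable def dPsi (R ρ r : ℝ) (x y z : ℝ × ℝ → ℝ) (s : ℝ) (w : Fin 3 → ℝ) :
    (Fin 3 → ℝ) →L[ℝ] (Fin 3 → ℝ) :=
  ContinuousLinearMap.pi ![dcomp s (nrm R ρ r y z) w, dcomp s (nrm R ρ r z x) w, dcomp s (nrm R ρ r x y) w]

lemma Ind.hasFDerivAt_Psi (h : Ind R ρ r x y z) (H : Adm R ρ r) (s : ℝ) (w : Fin 3 → ℝ) :
    HasFDerivAt (Psi R ρ r x y z s) (dPsi R ρ r x y z s w) w := by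
  rw [hasFDerivAt_pi']
  intro i
  fin_cases i
  · exact hasFDerivAt_comp (Sm.nrm H h.sy h.sz) s w
  · exact hasFDerivAt_comp (Sm.nrm H h.sz h.sx) s w
  · exact hasFDerivAt_comp (Sm.nrm H h.sx h.sy) s w

lemma Ind.det_dPsi (h : Ind R ρ r x y z) (H : Adm R ρ r) (s : ℝ) (w : Fin 3 → ℝ) :
    (dPsi R ρ r x y z s w).det = s ^ 3 * (w 2 ^ 2 * (ρ / r * Real.cos (w 1))) := by
  have hj := h.jacobian_nrm H (w 0, w 1)
  unfold ContinuousLinearMap.det
  rw [← LinearMap.det_toMatrix', Matrix.det_fin_three]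
  simp only [LinearMap.toMatrix'_apply, dPsi, ContinuousLinearMap.coe_coe,
    ContinuousLinearMap.coe_pi', dcomp, Matrix.cons_val_zero, Matrix.cons_val_one,
    Matrix.cons_val, add_apply, smul_apply,
    ContinuousLinearMap.proj_apply, smul_eq_mul]
  simp
  simp only at hj
  rw [← hj]
  ring

/-- the parameter box -/
def box : Set (Fin 3 → ℝ) :=
  {w | w 0 ∈ Set.Icc 0 (2 * π) ∧ w 1 ∈ Set.Icc (-(π / 2)) (π / 2) ∧ w 2 ∈ Set.Icc (0 : ℝ) 1}

def Aplus (R ρ r : ℝ) (x y z : ℝ × ℝ → ℝ) : Set (Fin 3 → ℝ) :=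
  box ∩ {w | (w 0, w 1) ∈ Splus R ρ r x y z}

def Aminus (R ρ r : ℝ) (x y z : ℝ × ℝ → ℝ) : Set (Fin 3 → ℝ) :=
  box ∩ {w | (w 0, w 1) ∈ Sminus R ρ r x y z}

/-- the unit ball of Euclidean space in coordinates -/
def uball : Set (Fin 3 → ℝ) := {y | y 0 * y 0 + y 1 * y 1 + y 2 * y 2 ≤ 1}

lemma isClosed_box : IsClosed box := by
  unfold box
  refine IsClosed.inter (isClosed_Icc.preimage (continuous_apply 0)) ?_
  exact IsClosed.inter (isClosed_Icc.preimage (continuous_apply 1))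
    (isClosed_Icc.preimage (continuous_apply 2))

lemma isClosed_Splus (h : Ind R ρ r x y z) (H : Adm R ρ r) :
    IsClosed (Splus R ρ r x y z) := by
  have c1 := (Sm.nrm H h.sy h.sz).continuous
  have c2 := (Sm.nrm H h.sz h.sx).continuous
  have c3 := (Sm.nrm H h.sx h.sy).continuous
  have d1 := h.sx.continuous
  have d2 := h.sy.continuous
  have d3 := h.sz.continuous
  unfold Splus
  rw [Set.ofPred_forall]
  refine isClosed_iInter fun q => ?_
  unfold lin
  exact isClosed_le (by fun_prop) (by fun_prop)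

lemma isClosed_Sminus (h : Ind R ρ r x y z) (H : Adm R ρ r) :
    IsClosed (Sminus R ρ r x y z) := by
  have c1 := (Sm.nrm H h.sy h.sz).continuous
  have c2 := (Sm.nrm H h.sz h.sx).continuous
  have c3 := (Sm.nrm H h.sx h.sy).continuous
  have d1 := h.sx.continuous
  have d2 := h.sy.continuous
  have d3 := h.sz.continuous
  unfold Sminus
  rw [Set.ofPred_forall]
  refine isClosed_iInter fun q => ?_
  unfold lin
  exact isClosed_le (by fun_prop) (by fun_prop)

lemma uball_subset (h : Ind R ρ r x y z) (H : Adm R ρ r)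
    (px : Periodic2 x) (py : Periodic2 y) (pz : Periodic2 z) :
    uball ⊆ Psi R ρ r x y z 1 '' Aplus R ρ r x y z ∪ Psi R ρ r x y z (-1) '' Aminus R ρ r x y z := by
  intro v hv
  -- write `v = r n` with `n` a unit vector
  obtain ⟨r, n1, n2, n3, hr, hn, e0, e1, e2⟩ : ∃ r n1 n2 n3 : ℝ, r ∈ Set.Icc (0 : ℝ) 1 ∧
      n1 * n1 + n2 * n2 + n3 * n3 = 1 ∧ v 0 = r * n1 ∧ v 1 = r * n2 ∧ v 2 = r * n3 := by
    set m := v 0 * v 0 + v 1 * v 1 + v 2 * v 2 with hm
    have hm0 : 0 ≤ m := by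
      rw [hm]
      nlinarith [mul_self_nonneg (v 0), mul_self_nonneg (v 1), mul_self_nonneg (v 2)]
    rcases hm0.eq_or_lt with hz | hp
    · have z0 : v 0 = 0 := by
        nlinarith [mul_self_nonneg (v 0), mul_self_nonneg (v 1), mul_self_nonneg (v 2)]
      have z1 : v 1 = 0 := by
        nlinarith [mul_self_nonneg (v 0), mul_self_nonneg (v 1), mul_self_nonneg (v 2)]
      have z2 : v 2 = 0 := by
        nlinarith [mul_self_nonneg (v 0), mul_self_nonneg (v 1), mul_self_nonneg (v 2)]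
      exact ⟨0, 1, 0, 0, by simp, by norm_num, by simp [z0], by simp [z1], by simp [z2]⟩
    · have hsp : 0 < Real.sqrt m := Real.sqrt_pos.mpr hp
      have hss : Real.sqrt m * Real.sqrt m = m := Real.mul_self_sqrt hm0
      refine ⟨Real.sqrt m, v 0 / Real.sqrt m, v 1 / Real.sqrt m, v 2 / Real.sqrt m,
        ⟨hsp.le, ?_⟩, ?_, ?_, ?_, ?_⟩
      · rw [Real.sqrt_le_one]; exact hv
      · field_simp
        nlinarith
      · field_simp
      · field_simp
      · field_simp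
  obtain ⟨p, hp1, hp2, hc⟩ := h.cover H px py pz hn
  rcases hc with ⟨hS, a1, a2, a3⟩ | ⟨hS, a1, a2, a3⟩
  · left
    refine ⟨![p.1, p.2, r], ⟨⟨hp1, hp2, hr⟩, hS⟩, ?_⟩
    funext i
    fin_cases i
    · simp [Psi, a1, e0]
    · simp [Psi, a2, e1]
    · simp [Psi, a3, e2]
  · right
    refine ⟨![p.1, p.2, r], ⟨⟨hp1, hp2, hr⟩, hS⟩, ?_⟩
    funext i
    fin_cases i
    · simp [Psi, a1, e0]
    · simp [Psi, a2, e1]
    · simp [Psi, a3, e2]

lemma volume_uball : volume uball = ENNReal.ofReal (π * 4 / 3) := by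
  have h1 := EuclideanSpace.volume_closedBall_fin_three 0 1
  have h2 : (fun v : EuclideanSpace ℝ (Fin 3) => WithLp.ofLp v) ⁻¹' uball
      = Metric.closedBall (0 : EuclideanSpace ℝ (Fin 3)) 1 := by
    ext v
    simp only [Set.mem_preimage, uball, Set.mem_ofPred_eq, Metric.mem_closedBall, dist_zero_right]
    rw [EuclideanSpace.norm_eq, Real.sqrt_le_one, Fin.sum_univ_three]
    simp only [Real.norm_eq_abs, sq_abs]
    simp only [pow_two]
  have h3 := (PiLp.volume_preserving_ofLp (Fin 3)).measure_preimage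
    (s := uball) (by
      apply MeasurableSet.nullMeasurableSet
      apply IsClosed.measurableSet
      unfold uball
      exact isClosed_le (by fun_prop) continuous_const)
  rw [← h3]
  have h4 : (@WithLp.ofLp 2 (Fin 3 → ℝ)) ⁻¹' uball
      = Metric.closedBall (0 : EuclideanSpace ℝ (Fin 3)) 1 := h2
  rw [h4, h1]
  simp

lemma lintegral_box (H : Adm R ρ r) :
    ∫⁻ w in box, ENNReal.ofReal (w 2 ^ 2 * (ρ / r * Real.cos (w 1)))
      = ENNReal.ofReal (4 * π * (ρ / r) / 3) := by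
  let f : (i : Fin 3) → ℝ → ℝ := ![Set.indicator (Set.Icc 0 (2 * π)) (fun _ => 1),
    Set.indicator (Set.Icc (-(π / 2)) (π / 2)) (fun t => ρ / r * Real.cos t),
    Set.indicator (Set.Icc 0 1) (fun t => t ^ 2)]
  have hprod : ∀ w : Fin 3 → ℝ, ∏ i, f i (w i)
      = Set.indicator box (fun w => w 2 ^ 2 * (ρ / r * Real.cos (w 1))) w := by
    intro w
    rw [Fin.prod_univ_three]
    simp only [f, Matrix.cons_val_zero, Matrix.cons_val_one, Matrix.cons_val]
    by_cases hw : w ∈ box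
    · obtain ⟨w0, w1, w2⟩ := hw
      rw [Set.indicator_of_mem w0, Set.indicator_of_mem w1, Set.indicator_of_mem w2,
        Set.indicator_of_mem (show w ∈ box from ⟨w0, w1, w2⟩)]
      ring
    · rw [Set.indicator_of_notMem hw]
      by_cases w0 : w 0 ∈ Set.Icc 0 (2 * π)
      · by_cases w1 : w 1 ∈ Set.Icc (-(π / 2)) (π / 2)
        · have w2 : w 2 ∉ Set.Icc (0 : ℝ) 1 := fun w2 => hw ⟨w0, w1, w2⟩
          rw [Set.indicator_of_notMem w2]; ring
        · rw [Set.indicator_of_notMem w1]; ring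
      · rw [Set.indicator_of_notMem w0]; ring
  have hint : ∀ i, Integrable (f i) := by
    intro i
    fin_cases i
    · exact (continuous_const.integrableOn_Icc).integrable_indicator measurableSet_Icc
    · exact ((by fun_prop : Continuous fun t => ρ / r * Real.cos t).integrableOn_Icc).integrable_indicator
        measurableSet_Icc
    · exact ((by fun_prop : Continuous fun t : ℝ => t ^ 2).integrableOn_Icc).integrable_indicator
        measurableSet_Icc
  have hintp : Integrable (fun w : Fin 3 → ℝ => ∏ i, f i (w i)) :=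
    Integrable.fintype_prod hint
  have hI : ∫ w : Fin 3 → ℝ, ∏ i, f i (w i) = 4 * π * (ρ / r) / 3 := by
    rw [integral_fintype_prod_volume_eq_prod, Fin.prod_univ_three]
    have i0 : ∫ t, f 0 t = 2 * π := by
      simp only [f, Matrix.cons_val_zero]
      rw [integral_indicator measurableSet_Icc]
      simp [Real.pi_pos.le]
    have i1 : ∫ t, f 1 t = 2 * (ρ / r) := by
      simp only [f, Matrix.cons_val_one, Matrix.cons_val_zero]
      rw [integral_indicator measurableSet_Icc, integral_Icc_eq_integral_Ioc,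
        ← intervalIntegral.integral_of_le (by linarith [Real.pi_pos]),
        intervalIntegral.integral_const_mul, integral_cos]
      simp
      ring
    have i2 : ∫ t, f 2 t = 1 / 3 := by
      simp only [f, Matrix.cons_val]
      rw [integral_indicator measurableSet_Icc, integral_Icc_eq_integral_Ioc,
        ← intervalIntegral.integral_of_le (by norm_num), integral_pow]
      norm_num
    rw [i0, i1, i2]
    ring
  have hbm : MeasurableSet box := isClosed_box.measurableSet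
  rw [← hI, ofReal_integral_eq_lintegral_ofReal hintp]
  · rw [← lintegral_indicator hbm]
    congr 1
    funext w
    rw [hprod w]
    by_cases hw : w ∈ box
    · rw [Set.indicator_of_mem hw, Set.indicator_of_mem hw]
    · rw [Set.indicator_of_notMem hw, Set.indicator_of_notMem hw]
      simp
  · refine Filter.Eventually.of_forall fun w => ?_
    simp only [Pi.zero_apply]
    rw [hprod w]
    refine Set.indicator_nonneg (fun w hw => ?_) w
    have := Real.cos_nonneg_of_mem_Icc hw.2.1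
    have h0 := H.h0
    have hr := H.r_pos
    positivity

/-- No smooth doubly periodic map induces the metric `(R + ρ cos v)^2 du^2 + r^2 dv^2` when
`0 < ρ < r < R`. -/
theorem no_immersion (h : Ind R ρ r x y z) (H : Adm R ρ r)
    (px : Periodic2 x) (py : Periodic2 y) (pz : Periodic2 z) : False := by
  have hbm : MeasurableSet box := isClosed_box.measurableSet
  have hcp : Continuous fun w : Fin 3 → ℝ => ((w 0, w 1) : ℝ × ℝ) := by fun_prop
  have hAp : MeasurableSet (Aplus R ρ r x y z) :=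
    hbm.inter ((isClosed_Splus h H).preimage hcp).measurableSet
  have hAm : MeasurableSet (Aminus R ρ r x y z) :=
    hbm.inter ((isClosed_Sminus h H).preimage hcp).measurableSet
  have hd : Disjoint (Aplus R ρ r x y z) (Aminus R ρ r x y z) := by
    rw [Set.disjoint_left]
    intro w hw hw'
    exact (Set.disjoint_left.mp (h.disj H)) hw.2 hw'.2
  have hle1 := addHaar_image_le_lintegral_abs_det_fderiv (volume : Measure (Fin 3 → ℝ)) hAp
    (fun w _ => (h.hasFDerivAt_Psi H 1 w).hasFDerivWithinAt)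
  have hle2 := addHaar_image_le_lintegral_abs_det_fderiv (volume : Measure (Fin 3 → ℝ)) hAm
    (fun w _ => (h.hasFDerivAt_Psi H (-1) w).hasFDerivWithinAt)
  have hcong : ∀ s : ℝ, (s = 1 ∨ s = -1) → ∀ A : Set (Fin 3 → ℝ), A ⊆ box → MeasurableSet A →
      ∫⁻ w in A, ENNReal.ofReal |(dPsi R ρ r x y z s w).det|
        = ∫⁻ w in A, ENNReal.ofReal (w 2 ^ 2 * (ρ / r * Real.cos (w 1))) := by
    intro s hs A hA hmA
    refine setLIntegral_congr_fun hmA fun w hw => ?_
    rw [h.det_dPsi H]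
    have hcos := Real.cos_nonneg_of_mem_Icc (hA hw).2.1
    have h0 := H.h0
    have hr := H.r_pos
    rw [abs_mul, abs_of_nonneg (show 0 ≤ w 2 ^ 2 * (ρ / r * Real.cos (w 1)) by positivity)]
    rcases hs with hs | hs <;> rw [hs] <;> norm_num
  rw [hcong 1 (Or.inl rfl) (Aplus R ρ r x y z) Set.inter_subset_left hAp] at hle1
  rw [hcong (-1) (Or.inr rfl) (Aminus R ρ r x y z) Set.inter_subset_left hAm] at hle2
  have hfin : ENNReal.ofReal (π * 4 / 3) ≤ ENNReal.ofReal (4 * π * (ρ / r) / 3) := by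
    calc ENNReal.ofReal (π * 4 / 3) = volume uball := volume_uball.symm
      _ ≤ volume (Psi R ρ r x y z 1 '' Aplus R ρ r x y z ∪ Psi R ρ r x y z (-1) '' Aminus R ρ r x y z) :=
          measure_mono (uball_subset h H px py pz)
      _ ≤ volume (Psi R ρ r x y z 1 '' Aplus R ρ r x y z)
          + volume (Psi R ρ r x y z (-1) '' Aminus R ρ r x y z) := measure_union_le _ _
      _ ≤ (∫⁻ w in Aplus R ρ r x y z, ENNReal.ofReal (w 2 ^ 2 * (ρ / r * Real.cos (w 1))))
          + ∫⁻ w in Aminus R ρ r x y z, ENNReal.ofReal (w 2 ^ 2 * (ρ / r * Real.cos (w 1))) :=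
          add_le_add hle1 hle2
      _ = ∫⁻ w in Aplus R ρ r x y z ∪ Aminus R ρ r x y z,
            ENNReal.ofReal (w 2 ^ 2 * (ρ / r * Real.cos (w 1))) := (lintegral_union hAm hd).symm
      _ ≤ ∫⁻ w in box, ENNReal.ofReal (w 2 ^ 2 * (ρ / r * Real.cos (w 1))) :=
          lintegral_mono_set (Set.union_subset Set.inter_subset_left Set.inter_subset_left)
      _ = ENNReal.ofReal (4 * π * (ρ / r) / 3) := lintegral_box H
  have h0 := H.h0
  have hr := H.r_pos
  rw [ENNReal.ofReal_le_ofReal_iff (by positivity)] at hfin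
  have h2 : ρ / r < 1 := (div_lt_one hr).mpr H.h1
  nlinarith [Real.pi_pos]

lemma inner3 (a b : EuclideanSpace ℝ (Fin 3)) :
    inner ℝ a b = a 0 * b 0 + a 1 * b 1 + a 2 * b 2 := by
  rw [PiLp.inner_apply, Fin.sum_univ_three]
  simp only [RCLike.inner_apply, conj_trivial]
  ring

/-- the metric `(R + ρ cos v)² du² + r² dv²` -/
noncomputable def rev {R ρ r : ℝ} (h0 : 0 < ρ) (h1 : ρ ≤ r) (hR : r < R) : TorusMetric where
  E p := prof R ρ p * prof R ρ p
  F _ := 0
  G _ := r * r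
  smooth_E := (sm_prof R ρ).mul (sm_prof R ρ)
  smooth_F := contDiff_const
  smooth_G := contDiff_const
  periodic_E p := by simp [prof, Real.cos_add_two_pi]
  periodic_F p := by simp
  periodic_G p := by simp
  E_pos p := by
    have : 0 < prof R ρ p := prof_pos' h0 (by linarith) p
    positivity
  det_pos p := by
    have h2 : 0 < prof R ρ p := prof_pos' h0 (by linarith) p
    have h3 : 0 < r := by linarith
    have h4 : 0 < prof R ρ p * prof R ρ p * (r * r) := by positivity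
    simpa using h4

/-- components of a smooth map into Euclidean space -/
lemma comp_facts {f : ℝ × ℝ → EuclideanSpace ℝ (Fin 3)} (hf : ContDiff ℝ ∞ f) (i : Fin 3) :
    Sm (fun p => f p i) ∧ ∀ p w, (fderiv ℝ f p w) i = fderiv ℝ (fun p => f p i) p w := by
  have hd : Differentiable ℝ f := hf.differentiable (by simp)
  refine ⟨(contDiff_euclidean.mp hf) i, fun p w => ?_⟩
  have h1 : HasFDerivAt (fun p => f p i)
      ((EuclideanSpace.proj i : EuclideanSpace ℝ (Fin 3) →L[ℝ] ℝ).comp (fderiv ℝ f p)) p :=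
    (EuclideanSpace.proj i : EuclideanSpace ℝ (Fin 3) →L[ℝ] ℝ).hasFDerivAt.comp p
      (hd p).hasFDerivAt
  rw [h1.fderiv]
  rfl

/-- The metric `(R + ρ cos v)² du² + r² dv²` with `0 < ρ < r < R` has no smooth isometric
embedding into Euclidean 3-space. -/
lemma rev_not_embeds {R ρ r : ℝ} (H : Adm R ρ r) :
    ¬ ∃ f, IsIsometricEmbedding (rev H.h0 H.h1.le H.hR) f := by
  rintro ⟨f, hf⟩
  obtain ⟨sx, dx⟩ := comp_facts hf.smooth 0
  obtain ⟨sy, dy⟩ := comp_facts hf.smooth 1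
  obtain ⟨sz, dz⟩ := comp_facts hf.smooth 2
  have hI : Ind R ρ r (fun p => f p 0) (fun p => f p 1) (fun p => f p 2) := by
    refine ⟨sx, sy, sz, fun p => ?_, fun p => ?_, fun p => ?_⟩
    · have := hf.inner_uu p
      rw [inner3, dx, dy, dz] at this
      exact this
    · have := hf.inner_uv p
      rw [inner3, dx, dy, dz, dx, dy, dz] at this
      exact this
    · have := hf.inner_vv p
      rw [inner3, dx, dy, dz] at this
      exact this
  have hper : ∀ i : Fin 3, Periodic2 (fun p => f p i) := by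
    intro i p
    exact ⟨congrArg (fun v : EuclideanSpace ℝ (Fin 3) => v i) (hf.periodic p).1,
      congrArg (fun v : EuclideanSpace ℝ (Fin 3) => v i) (hf.periodic p).2⟩
  exact no_immersion hI H (hper 0) (hper 1) (hper 2)

lemma torusOfRevolution_embeds {R r : ℝ} (hr : 0 < r) (hR : r < R) :
    IsIsometricEmbedding (rev hr le_rfl hR) (torusOfRevolution R r) := by
  have sc1 : Sm (fun p : ℝ × ℝ => Real.cos p.1) := Real.contDiff_cos.comp contDiff_fst
  have ss1 : Sm (fun p : ℝ × ℝ => Real.sin p.1) := Real.contDiff_sin.comp contDiff_fst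
  have sc2 : Sm (fun p : ℝ × ℝ => R + r * Real.cos p.2) := sm_prof R r
  have ss2 : Sm (fun p : ℝ × ℝ => r * Real.sin p.2) :=
    contDiff_const.mul (Real.contDiff_sin.comp contDiff_snd)
  have hsm : ContDiff ℝ ∞ (torusOfRevolution R r) := by
    rw [contDiff_euclidean]
    intro i
    fin_cases i
    · exact sc2.mul sc1
    · exact sc2.mul ss1
    · exact ss2
  obtain ⟨sx, dx⟩ := comp_facts hsm 0
  obtain ⟨sy, dy⟩ := comp_facts hsm 1
  obtain ⟨sz, dz⟩ := comp_facts hsm 2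
  -- the partial derivatives of the three components
  have hu : ∀ (g : ℝ × ℝ → ℝ) (c : ℝ) (p : ℝ × ℝ), Sm g →
      HasDerivAt (fun t : ℝ => g (p.1 + t, p.2)) c 0 → fderiv ℝ g p (1, 0) = c := by
    intro g c p hg hd
    have h := hasDerivAt_line hg p 1 0 0
    simp only [mul_one, mul_zero, add_zero] at h
    have := h.unique hd
    simpa [Du] using this
  have hv : ∀ (g : ℝ × ℝ → ℝ) (c : ℝ) (p : ℝ × ℝ), Sm g →
      HasDerivAt (fun t : ℝ => g (p.1, p.2 + t)) c 0 → fderiv ℝ g p (0, 1) = c := by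
    intro g c p hg hd
    have h := hasDerivAt_line hg p 0 1 0
    simp only [mul_one, mul_zero, add_zero] at h
    have := h.unique hd
    simpa [Dv] using this
  have tr : ∀ a : ℝ, HasDerivAt (fun t : ℝ => a + t) 1 0 :=
    fun a => (hasDerivAt_id (0 : ℝ)).const_add a
  have xu : ∀ p, fderiv ℝ (fun p => torusOfRevolution R r p 0) p (1, 0)
      = - (R + r * Real.cos p.2) * Real.sin p.1 := by
    intro p
    refine hu _ _ p sx ?_
    have h := ((tr p.1).cos).const_mul (R + r * Real.cos p.2)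
    have e : (R + r * Real.cos p.2) * (-Real.sin (p.1 + 0) * 1)
        = - (R + r * Real.cos p.2) * Real.sin p.1 := by rw [add_zero]; ring
    rw [e] at h
    exact h
  have yu : ∀ p, fderiv ℝ (fun p => torusOfRevolution R r p 1) p (1, 0)
      = (R + r * Real.cos p.2) * Real.cos p.1 := by
    intro p
    refine hu _ _ p sy ?_
    have h := ((tr p.1).sin).const_mul (R + r * Real.cos p.2)
    have e : (R + r * Real.cos p.2) * (Real.cos (p.1 + 0) * 1)
        = (R + r * Real.cos p.2) * Real.cos p.1 := by rw [add_zero]; ring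
    rw [e] at h
    exact h
  have zu : ∀ p, fderiv ℝ (fun p => torusOfRevolution R r p 2) p (1, 0) = 0 := by
    intro p
    refine hu _ _ p sz ?_
    exact hasDerivAt_const (0 : ℝ) (r * Real.sin p.2)
  have xv : ∀ p, fderiv ℝ (fun p => torusOfRevolution R r p 0) p (0, 1)
      = - (r * Real.sin p.2) * Real.cos p.1 := by
    intro p
    refine hv _ _ p sx ?_
    have h := ((((tr p.2).cos).const_mul r).const_add R).mul_const (Real.cos p.1)
    have e : (r * (-Real.sin (p.2 + 0) * 1)) * Real.cos p.1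
        = - (r * Real.sin p.2) * Real.cos p.1 := by rw [add_zero]; ring
    rw [e] at h
    exact h
  have yv : ∀ p, fderiv ℝ (fun p => torusOfRevolution R r p 1) p (0, 1)
      = - (r * Real.sin p.2) * Real.sin p.1 := by
    intro p
    refine hv _ _ p sy ?_
    have h := ((((tr p.2).cos).const_mul r).const_add R).mul_const (Real.sin p.1)
    have e : (r * (-Real.sin (p.2 + 0) * 1)) * Real.sin p.1
        = - (r * Real.sin p.2) * Real.sin p.1 := by rw [add_zero]; ring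
    rw [e] at h
    exact h
  have zv : ∀ p, fderiv ℝ (fun p => torusOfRevolution R r p 2) p (0, 1)
      = r * Real.cos p.2 := by
    intro p
    refine hv _ _ p sz ?_
    have h := ((tr p.2).sin).const_mul r
    have e : r * (Real.cos (p.2 + 0) * 1) = r * Real.cos p.2 := by rw [add_zero]; ring
    rw [e] at h
    exact h
  refine ⟨hsm, ?_, ?_, ?_, ?_, ?_⟩
  · intro p
    unfold torusOfRevolution
    simp only [Real.cos_add_two_pi, Real.sin_add_two_pi, and_self]
  · intro p q h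
    have h0 := congrArg (fun v : EuclideanSpace ℝ (Fin 3) => v 0) h
    have h1 := congrArg (fun v : EuclideanSpace ℝ (Fin 3) => v 1) h
    have h2 := congrArg (fun v : EuclideanSpace ℝ (Fin 3) => v 2) h
    simp only [torusOfRevolution, PiLp.toLp_apply, Matrix.cons_val_zero, Matrix.cons_val_one,
      Matrix.cons_val] at h0 h1 h2
    have cp : 0 < R + r * Real.cos p.2 := prof_pos' hr hR p
    have cq : 0 < R + r * Real.cos q.2 := prof_pos' hr hR q
    have hsq : (R + r * Real.cos p.2) ^ 2 = (R + r * Real.cos q.2) ^ 2 := by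
      have e1 := Real.sin_sq_add_cos_sq p.1
      have e2 := Real.sin_sq_add_cos_sq q.1
      have e3 : (R + r * Real.cos p.2) ^ 2 = ((R + r * Real.cos p.2) * Real.cos p.1) ^ 2
          + ((R + r * Real.cos p.2) * Real.sin p.1) ^ 2 := by
        linear_combination (-(R + r * Real.cos p.2) ^ 2) * e1
      have e4 : (R + r * Real.cos q.2) ^ 2 = ((R + r * Real.cos q.2) * Real.cos q.1) ^ 2
          + ((R + r * Real.cos q.2) * Real.sin q.1) ^ 2 := by
        linear_combination (-(R + r * Real.cos q.2) ^ 2) * e2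
      rw [e3, e4, h0, h1]
    have hrc : r * Real.cos p.2 = r * Real.cos q.2 := by nlinarith
    have hc : Real.cos p.2 = Real.cos q.2 := mul_left_cancel₀ hr.ne' hrc
    rw [hc] at h0 h1
    have hc1 : Real.cos p.1 = Real.cos q.1 := mul_left_cancel₀ cq.ne' h0
    have hs1 : Real.sin p.1 = Real.sin q.1 := mul_left_cancel₀ cq.ne' h1
    have hs2 : Real.sin p.2 = Real.sin q.2 := mul_left_cancel₀ hr.ne' h2
    have key : ∀ a b : ℝ, Real.cos a = Real.cos b → Real.sin a = Real.sin b →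
        ∃ m : ℤ, b = a + m * (2 * π) := by
      intro a b hcab hsab
      have : Real.cos (b - a) = 1 := by
        rw [Real.cos_sub, hcab, hsab]
        nlinarith [Real.sin_sq_add_cos_sq b]
      obtain ⟨m, hm⟩ := (Real.cos_eq_one_iff _).mp this
      exact ⟨m, by linarith⟩
    obtain ⟨m, hm⟩ := key _ _ hc1 hs1
    obtain ⟨n, hn⟩ := key _ _ hc hs2
    exact ⟨m, n, Prod.ext hm hn⟩
  · intro p
    rw [inner3]
    simp only [dx, dy, dz, xu, yu, zu]
    simp only [rev, prof]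
    linear_combination (R + r * Real.cos p.2) ^ 2 * Real.sin_sq_add_cos_sq p.1
  · intro p
    rw [inner3]
    simp only [dx, dy, dz, xu, yu, zu, xv, yv, zv]
    simp only [rev]
    ring
  · intro p
    rw [inner3]
    simp only [dx, dy, dz, xv, yv, zv]
    simp only [rev]
    linear_combination r ^ 2 * Real.sin p.2 ^ 2 * Real.sin_sq_add_cos_sq p.1
      + r ^ 2 * Real.sin_sq_add_cos_sq p.2

lemma c0Dist_rev {R ρ r : ℝ} (h0 : 0 < ρ) (h1 : ρ ≤ r) (hR : r < R) :
    c0Dist (rev (h0.trans_le h1) le_rfl hR) (rev h0 h1 hR)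
      ≤ ENNReal.ofReal (4 * R / (R - r) ^ 2 * (r - ρ)) := by
  unfold c0Dist
  refine iSup_le fun p => ENNReal.ofReal_le_ofReal ?_
  have hc1 := Real.neg_one_le_cos p.2
  have hc2 := Real.cos_le_one p.2
  set c := Real.cos p.2 with hc
  have hr : 0 < r := h0.trans_le h1
  have hpos : R - r ≤ R + r * c := by nlinarith
  have hRr : 0 < R - r := by linarith
  have hP : 0 < R + r * c := by linarith
  have hE : 0 < (R + r * c) * (R + r * c) := by positivity
  have hm : ((rev hr le_rfl hR).mat p)⁻¹ * ((rev h0 h1 hR).mat p - (rev hr le_rfl hR).mat p)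
      = !![((R + ρ * c) * (R + ρ * c) - (R + r * c) * (R + r * c))
        / ((R + r * c) * (R + r * c)), 0; 0, 0] := by
    rw [Matrix.inv_def]
    simp only [TorusMetric.mat, rev, prof, ← hc, Matrix.det_fin_two_of,
      Matrix.adjugate_fin_two_of, Ring.inverse_eq_inv']
    ext i j
    fin_cases i <;> fin_cases j <;> simp [Matrix.mul_apply, Fin.sum_univ_two]
    field_simp
  rw [hm]
  have htr : Matrix.trace (!![((R + ρ * c) * (R + ρ * c) - (R + r * c) * (R + r * c))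
      / ((R + r * c) * (R + r * c)), 0; 0, 0] ^ 2 : Matrix (Fin 2) (Fin 2) ℝ)
      = (((R + ρ * c) * (R + ρ * c) - (R + r * c) * (R + r * c))
        / ((R + r * c) * (R + r * c))) ^ 2 := by
    rw [pow_two, Matrix.trace_fin_two]
    simp [Matrix.mul_apply, Fin.sum_univ_two]
    ring
  rw [htr, Real.sqrt_sq_eq_abs, abs_div, abs_of_pos hE, div_le_iff₀ hE]
  have e : (R + ρ * c) * (R + ρ * c) - (R + r * c) * (R + r * c)
      = - ((r - ρ) * (c * (2 * R + (r + ρ) * c))) := by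
    ring
  rw [e, abs_neg, abs_mul, abs_mul, abs_of_nonneg (show 0 ≤ r - ρ by linarith)]
  have a1 : |c| ≤ 1 := abs_le.mpr ⟨hc1, hc2⟩
  have a2 : |2 * R + (r + ρ) * c| ≤ 4 * R := by
    rw [abs_le]
    constructor <;> nlinarith
  have a3 : |c| * |2 * R + (r + ρ) * c| ≤ 4 * R := by
    calc |c| * |2 * R + (r + ρ) * c| ≤ 1 * (4 * R) :=
          mul_le_mul a1 a2 (abs_nonneg _) zero_le_one
      _ = 4 * R := one_mul _
  have a4 : 1 ≤ 1 / (R - r) ^ 2 * ((R + r * c) * (R + r * c)) := by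
    rw [one_div, inv_mul_eq_div, le_div_iff₀ (by positivity)]
    nlinarith
  calc (r - ρ) * (|c| * |2 * R + (r + ρ) * c|)
      ≤ (r - ρ) * (4 * R) := mul_le_mul_of_nonneg_left a3 (by linarith)
    _ = (r - ρ) * (4 * R) * 1 := by ring
    _ ≤ (r - ρ) * (4 * R) * (1 / (R - r) ^ 2 * ((R + r * c) * (R + r * c))) :=
        mul_le_mul_of_nonneg_left a4 (mul_nonneg (by linarith) (by linarith))
    _ = 4 * R / (R - r) ^ 2 * (r - ρ) * ((R + r * c) * (R + r * c)) := by ring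

/-- For all `0 < r < R`, the metric `g₀` induced on the torus by the torus of revolution with
radii `R` and `r`, which is a smooth isometric embedding of `(T², g₀)`, has the property that
arbitrarily close to `g₀` in the `C⁰` distance there are smooth metrics on the torus without any
smooth isometric embedding into Euclidean 3-space. -/
theorem result : ∀ R r : ℝ, 0 < r → r < R →
    ∃ g₀ : TorusMetric, IsIsometricEmbedding g₀ (torusOfRevolution R r) ∧
      ∀ ε : ℝ, 0 < ε → ∃ g : TorusMetric,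
        c0Dist g₀ g < ENNReal.ofReal ε ∧ ¬ ∃ f, IsIsometricEmbedding g f := by
  intro R r hr hR
  refine ⟨rev hr le_rfl hR, torusOfRevolution_embeds hr hR, fun ε hε => ?_⟩
  have hRr : 0 < R - r := by linarith
  have hRp : 0 < R := by linarith
  set K := 4 * R / (R - r) ^ 2 with hK
  have hKp : 0 < K := by positivity
  have hρ0 : 0 < max (r / 2) (r - ε / (2 * K)) := lt_of_lt_of_le (by linarith) (le_max_left _ _)
  have hρ1 : max (r / 2) (r - ε / (2 * K)) < r :=
    max_lt (by linarith) (by have : 0 < ε / (2 * K) := by positivity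
                             linarith)
  refine ⟨rev hρ0 hρ1.le hR, ?_, rev_not_embeds ⟨hρ0, hρ1, hR⟩⟩
  refine lt_of_le_of_lt (c0Dist_rev hρ0 hρ1.le hR) ?_
  rw [ENNReal.ofReal_lt_ofReal_iff hε, ← hK]
  have h3 := le_max_right (r / 2) (r - ε / (2 * K))
  have h4 : K * (r - max (r / 2) (r - ε / (2 * K))) ≤ K * (ε / (2 * K)) :=
    mul_le_mul_of_nonneg_left (by linarith) hKp.le
  have h5 : K * (ε / (2 * K)) = ε / 2 := by
    field_simp
  linarith

end Pool.Agent.Results.MP_665542_gt.TorusOfRevolution
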